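import Pool.Agent.Helper31.TW.St3
import Pool.Agent.Helper15.TS.PFIN

set_option autoImplicit false

namespace Pool.Agent.Helper58.TW

open Pool.Agent.Helper31.TW Pool.Agent.Helper22.CS

theorem hFUN : StFUN := by
  intro h n S hS
  obtain ⟨D, hf, hC, rfl⟩ := hS
  exact Pool.Agent.Helper15.TS.comLang_sUnion_cf hf (fun C hC' => h n C (hC C hC'))

end Pool.Agent.Helper58.TW
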