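import Pool.Agent.Helper13.TW.StE

/-!
# Project TW, module LRA: one-sided small joint subdivisions
-/

set_option autoImplicit false

namespace Pool.Agent.Helper58.TW

open Set Topology Pool.Agent.Helper13.TR Pool.Agent.Helper13.TW

/-- The induction on the subdivision of the cell. -/
private theorem aux (hJSP : StJSP) (hLRC : StLRC) (X X' : Type) [MetricSpace X] [MetricSpace X']
    (cell : Set X → Set X → Prop) (cell' : Set X' → Set X' → Prop) (hc : CSy cell) (hc' : CSy cell')
    (ε : ℝ) (E J : Set X) (hgt : GT cell ε E J) :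
    ∀ M : MP X X', Val cell cell' M → M.E = E → M.J = J →
      ∃ L : Set (MP X X'), LR cell cell' M L ∧ ∀ N ∈ L, Metric.diam N.E < ε := by
  induction hgt with
  | leaf E J hd =>
    intro M hM hE hJ
    refine ⟨{M}, (hLRC X X' cell cell' hc hc').2 M hM, ?_⟩
    intro N hN
    rw [Set.mem_singleton_iff] at hN
    subst hN
    rw [hE]
    exact hd
  | node E J p q D₁ D₂ P E₁ E₂ hs hc1 hc2 _ _ ih1 ih2 =>
    intro M hM hE hJ
    subst hE
    subst hJ
    obtain ⟨M₁, M₂, hLR, e1, j1, e2, j2⟩ :=
      hJSP X X' cell cell' hc hc' M hM p q D₁ D₂ P E₁ E₂ hs hc1 hc2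
    obtain ⟨L₁, hL₁, hd₁⟩ := ih1 M₁ (hLR.val M₁ (by simp)) e1 j1
    obtain ⟨L₂, hL₂, hd₂⟩ := ih2 M₂ (hLR.val M₂ (by simp)) e2 j2
    classical
    have hcomp := (hLRC X X' cell cell' hc hc').1 M {M₁, M₂} (fun N => if N = M₁ then L₁ else L₂) hM hLR
      (by
        intro N hN
        by_cases h : N = M₁
        · subst h
          simpa using hL₁
        · have h2 : N = M₂ := by
            rcases hN with h' | h'
            · exact absurd h' h
            · exact h'
          simp only [h, if_false]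
          rw [h2]
          exact hL₂)
    refine ⟨_, hcomp, ?_⟩
    intro N hN
    simp only [Set.mem_iUnion] at hN
    obtain ⟨N', _, hN'⟩ := hN
    by_cases h : N' = M₁
    · rw [if_pos h] at hN'
      exact hd₁ N hN'
    · rw [if_neg h] at hN'
      exact hd₂ N hN'

/-- LRA. -/
theorem hLRA (hJSP : StJSP) (hLRC : StLRC) : StLRA := by
  intro X X' _ _ cell cell' hc hc' M hM ε hε
  exact aux hJSP hLRC X X' cell cell' hc hc' ε M.E M.J (hc.fin ε hε M.E M.J hM.1) M hM rfl rfl

end Pool.Agent.Helper58.TW
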